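import Pool.Agent.H.MP_8173ef_an.B

namespace Pool.Agent.Results.MP_8173ef_an.Counter

open MeasureTheory Filter Topology Finset Pool.Agent.H.MP_aa1cf3_an Pool.Agent.H.MP_8173ef_an
open scoped ENNReal

/-- Rectangular sums (indices start at `0`). -/
def S (a : ℕ → ℕ → ℝ) (φ : ℕ → ℕ → ℝ × ℝ → ℝ) (m n : ℕ) (x : ℝ × ℝ) : ℝ :=
  ∑ i ∈ range (m + 1), ∑ k ∈ range (n + 1), a i k * φ i k x

/-- Lebesgue measure on the unit square. -/
noncomputable def I2 : Measure (ℝ × ℝ) := volume.restrict (Set.Icc 0 1 ×ˢ Set.Icc 0 1)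

noncomputable def D (x : ℝ) : Om := fun i => decide (⌊2 ^ (i + 1) * x⌋₊ % 2 = 1)

lemma D_meas (i : ℕ) : Measurable fun x => D x i :=
  (measurable_of_countable fun k : ℕ => decide (k % 2 = 1)).comp
    (Nat.measurable_floor.comp (measurable_const.mul measurable_id))

lemma val_D {x : ℝ} (hx : x ∈ Set.Ico (0 : ℝ) 1) (n : ℕ) : val n (D x) = ⌊2 ^ n * x⌋₊ := by
  induction n with
  | zero => simp [H.MP_aa1cf3_an.val, Nat.floor_eq_zero.2 hx.2]
  | succ n ih =>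
    have h := Nat.floor_div_natCast (2 ^ (n + 1) * x) 2
    rw [show 2 ^ (n + 1) * x / ((2 : ℕ) : ℝ) = 2 ^ n * x by push_cast; ring] at h
    simp only [H.MP_aa1cf3_an.val, ih, D, decide_eq_true_eq]
    split_ifs <;> omega

lemma D_cyl (n : ℕ) (b : Om) :
    volume.restrict (Set.Ico (0 : ℝ) 1) (D ⁻¹' Cyl n b) = 2⁻¹ ^ n := by
  have hp : (0 : ℝ) < 2 ^ n := by positivity
  have hv : (val n b : ℝ) + 1 ≤ 2 ^ n := by exact_mod_cast val_lt n b
  rw [Measure.restrict_apply' measurableSet_Ico]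
  have : D ⁻¹' Cyl n b ∩ Set.Ico 0 1 = 
      Set.Ico ((val n b : ℝ) / 2 ^ n) (((val n b : ℝ) + 1) / 2 ^ n) := by
    ext x
    simp only [Set.mem_inter_iff, Set.mem_preimage, ← val_eq_iff]
    constructor
    · rintro ⟨h1, h2⟩
      rw [val_D h2, Nat.floor_eq_iff (mul_nonneg hp.le h2.1)] at h1
      exact ⟨by rw [div_le_iff₀' hp]; exact h1.1, by rw [lt_div_iff₀' hp]; exact h1.2⟩
    · rintro ⟨h1, h2⟩
      have h3 : x ∈ Set.Ico (0 : ℝ) 1 :=
        ⟨le_trans (by positivity) h1, h2.trans_le (by rw [div_le_one hp]; exact hv)⟩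
      refine ⟨?_, h3⟩
      rw [val_D h3, Nat.floor_eq_iff (mul_nonneg hp.le h3.1)]
      exact ⟨by rwa [div_le_iff₀' hp] at h1, by rwa [lt_div_iff₀' hp] at h2⟩
  rw [this, Real.volume_Ico, show ((val n b : ℝ) + 1) / 2 ^ n - val n b / 2 ^ n = 2⁻¹ ^ n by
    rw [inv_pow]; field_simp; ring, ENNReal.ofReal_pow (by norm_num),
    ENNReal.ofReal_inv_of_pos two_pos]
  simp

noncomputable def Φ (p : ℝ × ℝ) : Om := fun i => if i % 2 = 0 then D p.1 (i / 2) else D p.2 (i / 2)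

lemma Φ_meas : Measurable Φ := by
  refine measurable_pi_lambda _ fun i => ?_
  simp only [Φ]
  split_ifs
  · exact (D_meas _).comp measurable_fst
  · exact (D_meas _).comp measurable_snd

lemma Φ_even (p : ℝ × ℝ) (i : ℕ) : Φ p (2 * i) = D p.1 i := by simp [Φ]

lemma Φ_odd (p : ℝ × ℝ) (i : ℕ) : Φ p (2 * i + 1) = D p.2 i := by
  have : (2 * i + 1) / 2 = i := by omega
  simp [Φ, this]

lemma I2_eq : I2 = (volume.restrict (Set.Ico (0 : ℝ) 1)).prod
    (volume.restrict (Set.Ico (0 : ℝ) 1)) := by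
  rw [restrict_Ico_eq_restrict_Icc, Measure.prod_restrict]; rfl

lemma I2_prob : IsProbabilityMeasure I2 := ⟨by
  rw [I2_eq, ← Set.univ_prod_univ, Measure.prod_prod]; simp⟩

lemma fair : Fair (I2.map Φ) := by
  have := I2_prob
  refine ⟨Measure.isProbabilityMeasure_map Φ_meas.aemeasurable, fun n b => ?_⟩
  rw [Measure.map_apply Φ_meas (Cyl_meas n b)]
  have : Φ ⁻¹' Cyl n b = (D ⁻¹' Cyl ((n + 1) / 2) fun i => b (2 * i)) ×ˢ
      (D ⁻¹' Cyl (n / 2) fun i => b (2 * i + 1)) := by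
    ext p
    simp only [Cyl, Set.mem_preimage, Set.mem_ofPred_eq, Set.mem_prod]
    constructor
    · intro h
      exact ⟨fun i hi => by rw [← Φ_even, h _ (by omega)], fun i hi => by
        rw [← Φ_odd, h _ (by omega)]⟩
    · rintro ⟨h1, h2⟩ i hi
      obtain ⟨j, rfl | rfl⟩ := Nat.even_or_odd' i
      · rw [Φ_even, h1 j (by omega)]
      · rw [Φ_odd, h2 j (by omega)]
  rw [this, I2_eq, Measure.prod_prod, D_cyl, D_cyl, ← pow_add]
  congr 1
  omega

lemma mp : MeasurePreserving Φ I2 (I2.map Φ) := ⟨Φ_meas, rfl⟩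

def mu (k : ℕ) : ℕ := #{j ∈ range k | NN j ≤ k}

lemma mu_mono : Monotone mu := fun k l h => card_le_card fun j hj => by
  simp only [mem_filter, mem_range] at hj ⊢
  omega

lemma NN_mono : StrictMono NN := fun _ _ h => Nat.pow_lt_pow_right one_lt_two (rr_mono h)

lemma mu_le {j k : ℕ} (h : k < NN j) : mu k ≤ j := by
  rw [← card_range j]
  exact card_le_card fun i hi => mem_range.2 (NN_mono.lt_iff_lt.1 ((mem_filter.1 hi).2.trans_lt h))

lemma le_mu (M k : ℕ) (h : NN M ≤ k) : M ≤ mu k := by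
  rw [← card_range M]
  refine card_le_card fun i hi => ?_
  have := NN_mono (mem_range.1 hi)
  have := NN_mono.le_apply (x := i)
  simp only [mem_filter, mem_range]
  omega

lemma aa_summable : Summable fun p : ℕ × ℕ => aa p.1 p.2 ^ 2 * ((4 : ℝ) ^ p.1 + mu p.2) := by
  have z : ∀ i, ∀ k ∉ range (NN (st i)), aa i k ^ 2 * ((4 : ℝ) ^ i + mu k) = 0 := fun i k hk => by
    simp [aa, mem_range.not.1 hk]
  refine (summable_prod_of_nonneg fun p => by positivity).2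
    ⟨fun i => summable_of_ne_finset_zero (z i), ?_⟩
  have hs : Summable fun i : ℕ => 8 * (1 / ((i + 1 : ℕ) : ℝ) ^ 2) :=
    ((summable_nat_add_iff 1).2 (Real.summable_one_div_nat_pow.2 one_lt_two)).mul_left 8
  refine hs.of_nonneg_of_le (fun i => tsum_nonneg fun k => by positivity) fun i => ?_
  rw [tsum_eq_sum (z i)]
  have a1 : ((i + 1 : ℕ) : ℝ) ≤ 2 * 2 ^ st i := by
    have := (Nat.lt_pow_succ_log_self one_lt_two (i + 1)).le
    rw [pow_succ'] at this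
    exact_mod_cast this
  have a2 : ∀ k ∈ range (NN (st i)), aa i k ^ 2 * ((4 : ℝ) ^ i + mu k) ≤
      2 / ((2 ^ st i) ^ 2 * 2 ^ rr (st i)) := by
    intro k hk
    have b1 : (mu k : ℝ) ≤ 4 ^ i := by
      have := mu_le (mem_range.1 hk)
      have b2 : st i < i + 1 := Nat.log_lt_self 2 (by omega)
      have b3 := Nat.lt_pow_self (n := i) (show 1 < 4 by norm_num)
      exact_mod_cast (by omega : mu k ≤ 4 ^ i)
    rw [aa, if_pos (mem_range.1 hk), inv_pow, mul_pow, mul_pow, Real.sq_sqrt (by positivity),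
      ← pow_mul, mul_comm i, pow_mul, show (2 : ℝ) ^ 2 = 4 by norm_num]
    calc _ ≤ ((4 : ℝ) ^ i * (2 ^ st i) ^ 2 * 2 ^ rr (st i))⁻¹ * (2 * 4 ^ i) :=
          mul_le_mul_of_nonneg_left (by linarith) (by positivity)
      _ = _ := by field_simp
  refine (sum_le_sum a2).trans ?_
  rw [sum_const, card_range, nsmul_eq_mul, NN]
  have p : (0 : ℝ) < ((i + 1 : ℕ) : ℝ) := by positivity
  have := pow_le_pow_left₀ p.le a1 2
  push_cast at *
  field_simp
  linarith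

theorem result : ∃ (lam : ℕ → ℕ → ℝ) (φ : ℕ → ℕ → ℝ × ℝ → ℝ) (a : ℕ → ℕ → ℝ),
    (∀ i k, 0 < lam i k) ∧ (∀ i k, lam i k ≤ lam (i + 1) k ∧ lam i k ≤ lam i (k + 1)) ∧
    (∀ M : ℝ, ∃ N, ∀ i k, N ≤ max i k → M ≤ lam i k) ∧
    (∀ i k, 0 ≤ lam (i + 1) (k + 1) - lam (i + 1) k - lam i (k + 1) + lam i k) ∧
    (∀ i k, MemLp (φ i k) 2 I2) ∧
    (∀ i k j l, ∫ x, φ i k x * φ j l x ∂I2 = if (i, k) = (j, l) then 1 else 0) ∧
    (∀ b : ℕ → ℕ → ℝ, Summable (fun p : ℕ × ℕ => b p.1 p.2 ^ 2) →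
      ∀ᵐ x ∂I2, ∃ C : ℝ, ∀ m n, |S b φ m n x| / √(lam m n) ≤ C) ∧
    Summable (fun p : ℕ × ℕ => a p.1 p.2 ^ 2 * lam p.1 p.2) ∧
    ¬ ∀ᵐ x ∂I2, ∃ s : ℝ, ∀ ε > 0, ∃ N, ∀ m n, N ≤ m → N ≤ n → |S a φ m n x - s| < ε := by
  have hc : ∀ v : V (I2.map Φ), MemLp (fun x => v.1 (Φ x)) 2 I2 := fun v =>
    MemLp.comp_measurePreserving v.2 mp
  refine ⟨fun i k => 4 ^ i + mu k, fun i k x => (ph fair (i, k)).1 (Φ x), aa,
    fun i k => by positivity, fun i k => ⟨?_, ?_⟩, fun M => ?_, fun i k => le_of_eq (by ring),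
    fun i k => hc _, fun i k j l => ?_, fun b hb => ?_, aa_summable, fun h => ?_⟩
  · have : (4 : ℝ) ^ i ≤ 4 ^ (i + 1) := pow_le_pow_right₀ (by norm_num) (by omega)
    linarith
  · have : (mu k : ℝ) ≤ mu (k + 1) := by exact_mod_cast mu_mono (by omega)
    linarith
  · obtain ⟨n, hn⟩ := exists_nat_ge M
    refine ⟨NN n, fun i k h => hn.trans ?_⟩
    have := NN_mono.le_apply (x := n)
    have b3 := Nat.lt_pow_self (n := i) (show 1 < 4 by norm_num)
    have : n ≤ 4 ^ i + mu k := by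
      rcases le_max_iff.1 h with h | h
      · omega
      · have := le_mu n k h
        omega
    change (n : ℝ) ≤ 4 ^ i + mu k
    exact_mod_cast this
  · rw [← ON_ph fair (i, k) (j, l), B_apply, integral_map Φ_meas.aemeasurable]
    exact (MemLp.integrable_mul (ph fair (i, k)).2 (ph fair (j, l)).2).1
  · filter_upwards [mp.quasiMeasurePreserving.ae (grow fair b hb)] with x ⟨C, hC⟩
    refine ⟨|C|, fun m n => ?_⟩
    have a1 : (2 : ℝ) ^ m ≤ √(4 ^ m + mu n) := Real.le_sqrt_of_sq_le (by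
      rw [← pow_mul, mul_comm, pow_mul]
      have : (0 : ℝ) ≤ mu n := by positivity
      norm_num)
    rw [div_le_iff₀ (by positivity)]
    exact (hC m n).trans (mul_le_mul (le_abs_self _) a1 (by positivity) (abs_nonneg _))
  · exact div fair mp h

end Pool.Agent.Results.MP_8173ef_an.Counter
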